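import Pool.Agent.U115.WN.Stm
import Pool.Agent.U580.WM.RED
import Pool.Agent.U333.WM.COV
import Pool.Agent.U618.WM.EXB

/-!
# Project WN, package LLB (helper574): many primitive well-rounded lattices
-/

set_option autoImplicit false

open scoped Classical
open Matrix

namespace Pool.Agent.U574.WN

open Pool.Agent.U115.WM Pool.Agent.U115.WN

/-- dyadic summation -/
theorem dy {α : Type*} (S : Finset α) (x : α → ℝ) (hx : ∀ s ∈ S, 1 ≤ x s) (C : ℝ) (hC : 0 ≤ C)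
    (n k : ℕ) (hkn : k < n)
    (hc : ∀ Y : ℝ, 1 ≤ Y → ((S.filter fun s => x s ≤ Y).card : ℝ) ≤ C * Y ^ n) :
    ∀ (m : ℕ) (Y : ℝ), 0 ≤ Y → Y < 2 ^ m →
      ∑ s ∈ S.filter (fun s => x s ≤ Y), (1 / x s) ^ k ≤ 2 ^ (k + 1) * C * Y ^ (n - k) := by
  intro m
  induction m with
  | zero =>
    intro Y hY0 hY
    have h1 : S.filter (fun s => x s ≤ Y) = ∅ := by
      rw [Finset.filter_eq_empty_iff]
      intro s hs hle
      have := hx s hs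
      rw [pow_zero] at hY
      linarith
    rw [h1, Finset.sum_empty]
    positivity
  | succ m ih =>
    intro Y hY0 hY
    by_cases hY1 : Y < 1
    · have h1 : S.filter (fun s => x s ≤ Y) = ∅ := by
        rw [Finset.filter_eq_empty_iff]
        intro s hs hle
        have := hx s hs
        linarith
      rw [h1, Finset.sum_empty]
      positivity
    · push Not at hY1
      have hY' : 0 < Y := by linarith
      have h1 := ih (Y / 2) (by positivity) (by rw [pow_succ] at hY; linarith)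
      have h2 : ∑ s ∈ S.filter (fun s => x s ≤ Y), (1 / x s) ^ k =
          ∑ s ∈ (S.filter (fun s => x s ≤ Y)).filter (fun s => x s ≤ Y / 2), (1 / x s) ^ k +
          ∑ s ∈ (S.filter (fun s => x s ≤ Y)).filter (fun s => ¬ x s ≤ Y / 2), (1 / x s) ^ k :=
        (Finset.sum_filter_add_sum_filter_not _ _ _).symm
      have h3 : (S.filter (fun s => x s ≤ Y)).filter (fun s => x s ≤ Y / 2) =
          S.filter (fun s => x s ≤ Y / 2) := by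
        ext s
        simp only [Finset.mem_filter]
        constructor
        · rintro ⟨⟨a, _⟩, b⟩; exact ⟨a, b⟩
        · rintro ⟨a, b⟩; exact ⟨⟨a, by linarith⟩, b⟩
      have h4 : ∑ s ∈ (S.filter (fun s => x s ≤ Y)).filter (fun s => ¬ x s ≤ Y / 2),
          (1 / x s) ^ k ≤ C * Y ^ n * (2 / Y) ^ k := by
        calc ∑ s ∈ (S.filter (fun s => x s ≤ Y)).filter (fun s => ¬ x s ≤ Y / 2), (1 / x s) ^ k
            ≤ ∑ s ∈ (S.filter (fun s => x s ≤ Y)).filter (fun s => ¬ x s ≤ Y / 2), (2 / Y) ^ k := by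
              refine Finset.sum_le_sum fun s hs => ?_
              rw [Finset.mem_filter, Finset.mem_filter] at hs
              have h5 := hx s hs.1.1
              have h6 := hs.2
              push Not at h6
              refine pow_le_pow_left₀ (by positivity) ?_ k
              rw [div_le_div_iff₀ (by linarith) hY']
              linarith
          _ ≤ ∑ s ∈ S.filter (fun s => x s ≤ Y), (2 / Y) ^ k :=
              Finset.sum_le_sum_of_subset_of_nonneg (Finset.filter_subset _ _)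
                fun _ _ _ => by positivity
          _ = ((S.filter fun s => x s ≤ Y).card : ℝ) * (2 / Y) ^ k := by
              rw [Finset.sum_const, nsmul_eq_mul]
          _ ≤ C * Y ^ n * (2 / Y) ^ k :=
              mul_le_mul_of_nonneg_right (hc Y hY1) (by positivity)
      have h5 : C * Y ^ n * (2 / Y) ^ k = 2 ^ k * C * Y ^ (n - k) := by
        have e : Y ^ n = Y ^ (n - k) * Y ^ k := by
          rw [← pow_add]; congr 1; omega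
        rw [e, div_pow]
        field_simp
      have h6 : (Y / 2) ^ (n - k) ≤ Y ^ (n - k) / 2 := by
        obtain ⟨d, hd⟩ : ∃ d, n - k = d + 1 := ⟨n - k - 1, by omega⟩
        rw [hd, div_pow, pow_succ 2 d]
        have h7 : (1 : ℝ) ≤ 2 ^ d := one_le_pow₀ (by norm_num)
        rw [div_le_div_iff₀ (by positivity) (by norm_num)]
        have h8 : 0 ≤ Y ^ (d + 1) := by positivity
        nlinarith
      rw [h2, h3]
      calc ∑ s ∈ S.filter (fun s => x s ≤ Y / 2), (1 / x s) ^ k +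
            ∑ s ∈ (S.filter (fun s => x s ≤ Y)).filter (fun s => ¬ x s ≤ Y / 2), (1 / x s) ^ k
          ≤ 2 ^ (k + 1) * C * (Y / 2) ^ (n - k) + 2 ^ k * C * Y ^ (n - k) :=
            add_le_add h1 (h4.trans h5.le)
        _ ≤ 2 ^ (k + 1) * C * (Y ^ (n - k) / 2) + 2 ^ k * C * Y ^ (n - k) := by
            gcongr
        _ = 2 ^ (k + 1) * C * Y ^ (n - k) := by
            rw [pow_succ]; ring

/-- the saturated lattice of the columns -/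
def sat {n k : ℕ} (V : Matrix (Fin n) (Fin k) ℤ) : Set (Fin n → ℤ) :=
  {v | ∃ d : ℤ, d ≠ 0 ∧ ∃ w : Fin k → ℤ, d • v = V *ᵥ w}

theorem rank_eq {n k : ℕ} {V : Matrix (Fin n) (Fin k) ℤ} (hV : Inj V) :
    (V.map (Int.cast : ℤ → ℚ)).rank = k := by
  have h1 : (Vᵀ * V).det ≠ 0 := Pool.Agent.U580.WM.det_ne hV
  have h2 : (V.map (Int.cast : ℤ → ℚ))ᵀ * V.map (Int.cast : ℤ → ℚ) =
      (Vᵀ * V).map (Int.cast : ℤ → ℚ) := by
    have := (Matrix.map_mul (L := Vᵀ) (M := V) (f := Int.castRingHom ℚ)).symm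
    exact this
  have h3 : ((Vᵀ * V).map (Int.cast : ℤ → ℚ)).det = (((Vᵀ * V).det : ℤ) : ℚ) := by
    have := (Int.castRingHom ℚ).map_det (Vᵀ * V)
    exact this.symm
  have h4 : IsUnit ((V.map (Int.cast : ℤ → ℚ))ᵀ * V.map (Int.cast : ℤ → ℚ)) := by
    rw [Matrix.isUnit_iff_isUnit_det, h2, h3]
    exact isUnit_iff_ne_zero.2 (by exact_mod_cast h1)
  have h5 := Matrix.rank_of_isUnit _ h4
  rw [Fintype.card_fin] at h5
  refine le_antisymm ?_ ?_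
  · have := Matrix.rank_le_width (V.map (Int.cast : ℤ → ℚ))
    exact this
  · calc k = ((V.map (Int.cast : ℤ → ℚ))ᵀ * V.map (Int.cast : ℤ → ℚ)).rank := h5.symm
      _ ≤ _ := Matrix.rank_mul_le_right _ _

theorem exB {n k : ℕ} {C₀ : ℝ} (hR : ∀ B : Matrix (Fin n) (Fin k) ℤ, Inj B →
    ∃ U : Matrix (Fin k) (Fin k) ℤ, IsUnit U.det ∧ Red C₀ (B * U))
    {V : Matrix (Fin n) (Fin k) ℤ} (hV : Inj V) :
    ∃ B : Matrix (Fin n) (Fin k) ℤ, Red C₀ B ∧ lat B = sat V := by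
  obtain ⟨B, hB1, hB2⟩ := Pool.Agent.U618.WM.t_EXB n k k V (rank_eq hV)
  obtain ⟨U, hU, hred⟩ := hR B hB1
  refine ⟨B * U, hred, ?_⟩
  rw [(Pool.Agent.U333.WM.t_COV.2.1 n k B U hU).1]
  ext v
  exact hB2 v

theorem sat_Sat {n k : ℕ} (V : Matrix (Fin n) (Fin k) ℤ) : Sat (sat V) := by
  rintro v d hd ⟨e, he, w, hw⟩
  exact ⟨e * d, mul_ne_zero he hd, w, by rw [mul_smul, hw]⟩

theorem col_mem {n k : ℕ} (V : Matrix (Fin n) (Fin k) ℤ) (i : Fin k) :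
    (fun l => V l i) ∈ sat V := by
  refine ⟨1, one_ne_zero, Pi.single i 1, ?_⟩
  rw [one_smul, Matrix.mulVec_single_one]
  rfl

theorem cov_ge {n k : ℕ} {B : Matrix (Fin n) (Fin k) ℤ} (hB : Inj B) : 1 ≤ cov B := by
  have h1 := Pool.Agent.U333.WM.t_COV.2.2 n k B hB
  unfold cov
  rw [Real.one_le_sqrt]
  exact_mod_cast h1

/-- the number of the matrices with columns in a finite set -/
theorem fiber_card {n k : ℕ} (P : Set (Fin n → ℤ)) (hfin : P.Finite)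
    (F : Finset (Matrix (Fin n) (Fin k) ℤ)) (hF : ∀ V ∈ F, ∀ i, (fun l => V l i) ∈ P) :
    F.card ≤ P.ncard ^ k := by
  have h1 : F.card ≤ (Fintype.piFinset (fun _ : Fin k => hfin.toFinset)).card := by
    refine Finset.card_le_card_of_injOn (fun V i l => V l i) ?_ ?_
    · intro V hV
      rw [Finset.mem_coe] at hV
      rw [Finset.mem_coe, Fintype.mem_piFinset]
      intro i
      rw [Set.Finite.mem_toFinset]
      exact hF V hV i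
    · intro V _ W _ h
      ext l i
      exact congrFun (congrFun h i) l
  rw [Fintype.card_piFinset_const, ← Set.ncard_eq_toFinset_card P hfin] at h1
  exact h1

theorem t_LLB : S_LLB := by
  intro hLUB hLPT hLFM n k hk hkn
  obtain ⟨C₀, hC₀, hR⟩ := Pool.Agent.U580.WM.t_RED n k
  obtain ⟨C₁, hC₁, hP⟩ := hLPT n k C₀ hC₀
  obtain ⟨C₂', hU'⟩ := hLUB n k (by omega) hk
  obtain ⟨c₀, hc₀, hM⟩ := hLFM n k hkn.le
  obtain ⟨C₂, hC₂, hCC⟩ : ∃ C₂ : ℝ, 1 ≤ C₂ ∧ C₂' ≤ C₂ := ⟨max C₂' 1, le_max_right _ _, le_max_left _ _⟩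
  have hC₁0 : 0 < C₁ := by linarith
  have hC₂0 : 0 < C₂ := by linarith
  obtain ⟨D, hDdef⟩ : ∃ D : ℝ, D = C₁ ^ k * 2 ^ (k + 1) * C₂ := ⟨_, rfl⟩
  have hD : 0 < D := by rw [hDdef]; positivity
  obtain ⟨η, hηdef⟩ : ∃ η : ℝ, η = min 1 (c₀ / (2 * D)) := ⟨_, rfl⟩
  have hη : 0 < η := by rw [hηdef]; exact lt_min one_pos (by positivity)
  have hη1 : η ≤ 1 := by rw [hηdef]; exact min_le_left _ _
  have hηD : D * η ^ (n - k) ≤ c₀ / 2 := by
    calc D * η ^ (n - k) ≤ D * η := by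
          refine mul_le_mul_of_nonneg_left ?_ hD.le
          exact pow_le_of_le_one hη.le hη1 (by omega)
      _ ≤ D * (c₀ / (2 * D)) := by
          refine mul_le_mul_of_nonneg_left ?_ hD.le
          rw [hηdef]; exact min_le_right _ _
      _ = c₀ / 2 := by field_simp
  refine ⟨c₀ / 2 * (η / C₁) ^ k, η, C₁, by positivity, hη, hC₁, ?_⟩
  intro lam hlam
  have hlamR : (1 : ℝ) ≤ lam := by exact_mod_cast hlam
  have hlam0 : (0 : ℝ) < lam := by linarith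
  obtain ⟨hVfin, hVc⟩ := hM lam hlam
  obtain ⟨𝓥, h𝓥, hVcard⟩ : ∃ 𝓥 : Finset (Matrix (Fin n) (Fin k) ℤ),
      (∀ V, V ∈ 𝓥 ↔ Inj V ∧ ∀ l i, |V l i| ≤ lam) ∧ c₀ * (lam : ℝ) ^ (n * k) ≤ (𝓥.card : ℝ) := by
    refine ⟨hVfin.toFinset, ?_, ?_⟩
    · intro V
      rw [Set.Finite.mem_toFinset]
      rfl
    · rw [Set.ncard_eq_toFinset_card _ hVfin] at hVc
      exact hVc
  obtain ⟨𝓛, h𝓛⟩ : ∃ 𝓛 : Finset (Set (Fin n → ℤ)), 𝓛 = 𝓥.image sat := ⟨_, rfl⟩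
  have hL : ∀ Λ ∈ 𝓛, ∃ V ∈ 𝓥, sat V = Λ := by
    intro Λ h
    rw [h𝓛] at h
    exact Finset.mem_image.1 h
  have hb : ∀ Λ : Set (Fin n → ℤ), ∃ B : Matrix (Fin n) (Fin k) ℤ,
      Λ ∈ 𝓛 → Red C₀ B ∧ lat B = Λ := by
    intro Λ
    by_cases h : Λ ∈ 𝓛
    · obtain ⟨V, hV, rfl⟩ := hL Λ h
      obtain ⟨B, h1, h2⟩ := exB hR ((h𝓥 V).1 hV).1
      exact ⟨B, fun _ => ⟨h1, h2⟩⟩
    · exact ⟨0, fun h' => absurd h' h⟩
  choose b hb using hb
  have hpt : ∀ Λ ∈ 𝓛, (∀ i, (N (b Λ) i : ℝ) ≤ C₁ * (lam : ℝ) ^ 2) ∧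
      {v : Fin n → ℤ | v ∈ Λ ∧ ∀ l, |(v l : ℝ)| ≤ (lam : ℝ)}.Finite ∧
      ({v : Fin n → ℤ | v ∈ Λ ∧ ∀ l, |(v l : ℝ)| ≤ (lam : ℝ)}.ncard : ℝ) * cov (b Λ) ≤
        C₁ * (lam : ℝ) ^ k := by
    intro Λ hΛ
    obtain ⟨h1, h2⟩ := hb Λ hΛ
    obtain ⟨V, hV, hVΛ⟩ := hL Λ hΛ
    have hV' := (h𝓥 V).1 hV
    have h3 := hP (b Λ) lam h1 hlamR ⟨V, hV'.1, fun l i => by exact_mod_cast hV'.2 l i,
      fun i => by rw [h2, ← hVΛ]; exact col_mem V i⟩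
    rw [h2] at h3
    exact h3
  have hx1 : ∀ Λ ∈ 𝓛, 1 ≤ cov (b Λ) := fun Λ hΛ => cov_ge (hb Λ hΛ).1.inj
  have hx2 : ∀ Λ ∈ 𝓛, cov (b Λ) ≤ C₁ * (lam : ℝ) ^ k := by
    intro Λ hΛ
    obtain ⟨_, h1, h2⟩ := hpt Λ hΛ
    have h3 : 0 < {v : Fin n → ℤ | v ∈ Λ ∧ ∀ l, |(v l : ℝ)| ≤ (lam : ℝ)}.ncard := by
      rw [Set.ncard_pos h1]
      refine ⟨0, ?_, ?_⟩
      · rw [← (hb Λ hΛ).2]
        exact ⟨0, Matrix.mulVec_zero _⟩
      · intro l
        simp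
    have h4 : (1 : ℝ) ≤ ({v : Fin n → ℤ | v ∈ Λ ∧ ∀ l, |(v l : ℝ)| ≤ (lam : ℝ)}.ncard : ℝ) := by
      exact_mod_cast h3
    have h5 := hx1 Λ hΛ
    nlinarith
  have hfib : ∀ Λ ∈ 𝓛, ((𝓥.filter fun V => sat V = Λ).card : ℝ) ≤
      (C₁ * (lam : ℝ) ^ k) ^ k * (1 / cov (b Λ)) ^ k := by
    intro Λ hΛ
    obtain ⟨_, h1, h2⟩ := hpt Λ hΛ
    have h3 := fiber_card (k := k) _ h1 (𝓥.filter fun V => sat V = Λ) (by
      intro V hV i
      rw [Finset.mem_filter] at hV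
      refine ⟨?_, ?_⟩
      · rw [← hV.2]; exact col_mem V i
      · intro l
        have := ((h𝓥 V).1 hV.1).2 l i
        show |((V l i : ℤ) : ℝ)| ≤ (lam : ℝ)
        exact_mod_cast this)
    have h4 := hx1 Λ hΛ
    have h5 : ({v : Fin n → ℤ | v ∈ Λ ∧ ∀ l, |(v l : ℝ)| ≤ (lam : ℝ)}.ncard : ℝ) ≤
        C₁ * (lam : ℝ) ^ k * (1 / cov (b Λ)) := by
      rw [mul_one_div, le_div_iff₀ (by linarith)]
      exact h2
    calc ((𝓥.filter fun V => sat V = Λ).card : ℝ)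
        ≤ (({v : Fin n → ℤ | v ∈ Λ ∧ ∀ l, |(v l : ℝ)| ≤ (lam : ℝ)}.ncard ^ k : ℕ) : ℝ) := by
          exact_mod_cast h3
      _ = ({v : Fin n → ℤ | v ∈ Λ ∧ ∀ l, |(v l : ℝ)| ≤ (lam : ℝ)}.ncard : ℝ) ^ k := by
          push_cast; rfl
      _ ≤ (C₁ * (lam : ℝ) ^ k * (1 / cov (b Λ))) ^ k :=
          pow_le_pow_left₀ (by positivity) h5 k
      _ = _ := mul_pow _ _ _
  have hLsub : ∀ (S : Finset (Set (Fin n → ℤ))) (X : ℝ), 1 ≤ X → S ⊆ 𝓛 →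
      (∀ Λ ∈ S, cov (b Λ) ≤ X) → (S.card : ℝ) ≤ C₂ * X ^ n := by
    intro S X hX hS hSX
    obtain ⟨h1, h2⟩ := hU' X hX
    have h3 : (S : Set (Set (Fin n → ℤ))).ncard ≤
        {Λ : Set (Fin n → ℤ) | ∃ B : Matrix (Fin n) (Fin k) ℤ, Inj B ∧ lat B = Λ ∧
          cov B ≤ X}.ncard := by
      refine Set.ncard_le_ncard ?_ h1
      intro Λ hΛ
      rw [Finset.mem_coe] at hΛ
      exact ⟨b Λ, (hb Λ (hS hΛ)).1.inj, (hb Λ (hS hΛ)).2, hSX Λ hΛ⟩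
    rw [Set.ncard_coe_finset] at h3
    calc (S.card : ℝ) ≤ ({Λ : Set (Fin n → ℤ) | ∃ B : Matrix (Fin n) (Fin k) ℤ, Inj B ∧
          lat B = Λ ∧ cov B ≤ X}.ncard : ℝ) := by exact_mod_cast h3
      _ ≤ C₂' * X ^ n := h2
      _ ≤ C₂ * X ^ n := mul_le_mul_of_nonneg_right hCC (by positivity)
  obtain ⟨Y, hYdef⟩ : ∃ Y : ℝ, Y = η * (lam : ℝ) ^ k := ⟨_, rfl⟩
  have hY0 : 0 < Y := by rw [hYdef]; positivity
  obtain ⟨m, hm⟩ := pow_unbounded_of_one_lt Y (one_lt_two)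
  have hsmall : ∑ Λ ∈ 𝓛.filter (fun Λ => cov (b Λ) ≤ Y), (1 / cov (b Λ)) ^ k ≤
      2 ^ (k + 1) * C₂ * Y ^ (n - k) := by
    refine dy 𝓛 (fun Λ => cov (b Λ)) hx1 C₂ hC₂0.le n k hkn ?_ m Y hY0.le hm
    intro Z hZ
    refine hLsub _ Z hZ (Finset.filter_subset _ _) ?_
    intro Λ hΛ
    exact (Finset.mem_filter.1 hΛ).2
  have hbig : ∑ Λ ∈ 𝓛.filter (fun Λ => ¬ cov (b Λ) ≤ Y),
      (C₁ * (lam : ℝ) ^ k) ^ k * (1 / cov (b Λ)) ^ k ≤
      ((𝓛.filter (fun Λ => ¬ cov (b Λ) ≤ Y)).card : ℝ) * (C₁ / η) ^ k := by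
    rw [← nsmul_eq_mul, ← Finset.sum_const]
    refine Finset.sum_le_sum fun Λ hΛ => ?_
    rw [Finset.mem_filter] at hΛ
    have h1 := hx1 Λ hΛ.1
    have h2 := hΛ.2
    push Not at h2
    rw [← mul_pow]
    refine pow_le_pow_left₀ (by positivity) ?_ k
    rw [mul_one_div, div_le_div_iff₀ (by linarith) hη]
    rw [hYdef] at h2
    nlinarith
  have hsum : (𝓥.card : ℝ) ≤ ∑ Λ ∈ 𝓛, (C₁ * (lam : ℝ) ^ k) ^ k * (1 / cov (b Λ)) ^ k := by
    have h1 := Finset.card_eq_sum_card_image sat 𝓥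
    rw [← h𝓛] at h1
    rw [h1, Nat.cast_sum]
    exact Finset.sum_le_sum hfib
  have hsplit : (𝓥.card : ℝ) ≤ (C₁ * (lam : ℝ) ^ k) ^ k * (2 ^ (k + 1) * C₂ * Y ^ (n - k)) +
      ((𝓛.filter (fun Λ => ¬ cov (b Λ) ≤ Y)).card : ℝ) * (C₁ / η) ^ k := by
    refine hsum.trans ?_
    rw [← Finset.sum_filter_add_sum_filter_not 𝓛 (fun Λ => cov (b Λ) ≤ Y), ← Finset.mul_sum]
    refine add_le_add ?_ hbig
    exact mul_le_mul_of_nonneg_left hsmall (by positivity)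
  have hfirst : (C₁ * (lam : ℝ) ^ k) ^ k * (2 ^ (k + 1) * C₂ * Y ^ (n - k)) ≤
      c₀ / 2 * (lam : ℝ) ^ (n * k) := by
    have e1 : (lam : ℝ) ^ (n * k) = ((lam : ℝ) ^ k) ^ k * ((lam : ℝ) ^ k) ^ (n - k) := by
      rw [← pow_add, ← pow_mul]
      congr 1
      rw [show k + (n - k) = n by omega]
      ring
    rw [hYdef, mul_pow, mul_pow, e1]
    calc C₁ ^ k * ((lam : ℝ) ^ k) ^ k * (2 ^ (k + 1) * C₂ * (η ^ (n - k) * ((lam : ℝ) ^ k) ^ (n - k)))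
        = D * η ^ (n - k) * (((lam : ℝ) ^ k) ^ k * ((lam : ℝ) ^ k) ^ (n - k)) := by
          rw [hDdef]; ring
      _ ≤ _ := mul_le_mul_of_nonneg_right hηD (by positivity)
  have hX1 : 1 ≤ C₁ * (lam : ℝ) ^ k := by
    have := one_le_pow₀ hlamR (n := k)
    nlinarith
  have hfinWR : (WR n k η C₁ lam).Finite := by
    refine (hU' (C₁ * (lam : ℝ) ^ k) hX1).1.subset ?_
    rintro Λ ⟨_, B, h1, h2, _, h3, _⟩
    exact ⟨B, h1, h2, h3⟩
  refine ⟨hfinWR, ?_⟩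
  have hcardWR : ((𝓛.filter (fun Λ => ¬ cov (b Λ) ≤ Y)).card : ℝ) ≤
      ((WR n k η C₁ lam).ncard : ℝ) := by
    have h3 : ((𝓛.filter (fun Λ => ¬ cov (b Λ) ≤ Y) : Finset _) : Set (Set (Fin n → ℤ))).ncard ≤
        (WR n k η C₁ lam).ncard := by
      refine Set.ncard_le_ncard ?_ hfinWR
      intro Λ hΛ
      rw [Finset.mem_coe, Finset.mem_filter] at hΛ
      obtain ⟨hΛ1, hΛ2⟩ := hΛ
      push Not at hΛ2
      refine ⟨?_, b Λ, (hb Λ hΛ1).1.inj, (hb Λ hΛ1).2, ?_, hx2 Λ hΛ1, (hpt Λ hΛ1).1⟩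
      · obtain ⟨V, _, hV⟩ := hL Λ hΛ1
        rw [← hV]
        exact sat_Sat V
      · rw [← hYdef]; exact hΛ2.le
    rw [Set.ncard_coe_finset] at h3
    exact_mod_cast h3
  refine le_trans ?_ hcardWR
  have h6 : c₀ / 2 * (lam : ℝ) ^ (n * k) ≤
      ((𝓛.filter (fun Λ => ¬ cov (b Λ) ≤ Y)).card : ℝ) * (C₁ / η) ^ k := by
    linarith
  have h7 : (η / C₁) ^ k * (C₁ / η) ^ k = 1 := by
    rw [← mul_pow, div_mul_div_comm, mul_comm C₁ η, div_self (by positivity), one_pow]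
  calc c₀ / 2 * (η / C₁) ^ k * (lam : ℝ) ^ (n * k)
      = c₀ / 2 * (lam : ℝ) ^ (n * k) * (η / C₁) ^ k := by ring
    _ ≤ ((𝓛.filter (fun Λ => ¬ cov (b Λ) ≤ Y)).card : ℝ) * (C₁ / η) ^ k * (η / C₁) ^ k :=
        mul_le_mul_of_nonneg_right h6 (by positivity)
    _ = ((𝓛.filter (fun Λ => ¬ cov (b Λ) ≤ Y)).card : ℝ) := by
        rw [mul_assoc, mul_comm ((C₁ / η) ^ k), h7, mul_one]

end Pool.Agent.U574.WN
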